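import Mathlib

open MeasureTheory ProbabilityTheory Filter Topology Finset Real

namespace Pool.Agent.Results.MP_78f804_pr.NoLimit

/-- The number of subset sums of `S` in `[n]`. -/
noncomputable def cnt (S : Set ℕ) (n : ℕ) : ℕ :=
  {m | 1 ≤ m ∧ m ≤ n ∧ ∃ F : Finset ℕ, F.Nonempty ∧ (∀ i ∈ F, i ∈ S) ∧ ∑ i ∈ F, i = m}.ncard

/-- The inclusion probabilities. -/
noncomputable def p (i : ℕ) : ℝ := min 1 (1 / (i * log 2))

theorem l2 : 2 / 3 < log 2 ∧ log 2 < 1 := ⟨by linarith [log_two_gt_d9], by linarith [log_two_lt_d9]⟩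

theorem p01 (i : ℕ) : 0 ≤ p i ∧ p i ≤ 1 :=
  ⟨le_min zero_le_one (by have := l2.1; positivity), min_le_left _ _⟩

theorem hs (n : ℕ) : log n ≤ ∑ i ∈ Icc 1 n, (i : ℝ)⁻¹ ∧ ∑ i ∈ Icc 1 n, (i : ℝ)⁻¹ ≤ 1 + log n := by
  have h1 := log_add_one_le_harmonic n
  have h2 := harmonic_le_one_add_log n
  simp only [harmonic_eq_sum_Icc, Rat.cast_sum, Rat.cast_inv, Rat.cast_natCast] at h1 h2
  refine ⟨le_trans ?_ h1, h2⟩
  rcases n with _ | n
  · simp
  · gcongr; omega

theorem mu_le (n : ℕ) : (∑ i ∈ Icc 1 n, p i) * log 2 ≤ 1 + log n := by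
  refine le_trans ?_ (hs n).2
  rw [sum_mul]
  refine sum_le_sum fun i hi => ?_
  have : (0 : ℝ) < i := by exact_mod_cast (mem_Icc.1 hi).1
  have h := l2.1
  calc _ ≤ 1 / (i * log 2) * log 2 := by gcongr; exact min_le_right _ _
    _ = _ := by field_simp

theorem var_ge (n : ℕ) : (log n - 1) / 4 ≤ ∑ i ∈ Icc 1 n, p i * (1 - p i) := by
  have h1 : ∑ i ∈ Icc 1 n, (if i = 1 then (1 : ℝ) else 0) ≤ 1 := by
    rw [sum_ite_eq']; split_ifs <;> norm_num
  refine le_trans (by linarith [(hs n).1] : _ ≤ (∑ i ∈ Icc 1 n, (i : ℝ)⁻¹ -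
    ∑ i ∈ Icc 1 n, (if i = 1 then (1 : ℝ) else 0)) / 4) ?_
  rw [← sum_sub_distrib, sum_div]
  refine sum_le_sum fun i hi => ?_
  have h := l2
  split_ifs with e
  · simp [e]; exact mul_nonneg (p01 1).1 (sub_nonneg.2 (p01 1).2)
  · have : (2 : ℝ) ≤ i := by exact_mod_cast (by have := (mem_Icc.1 hi).1; omega : 2 ≤ i)
    have a : 1 / (i * log 2) ≤ 3 / 4 := by rw [div_le_div_iff₀ (by positivity) (by norm_num)]; nlinarith
    have b : (i : ℝ)⁻¹ ≤ 1 / (i * log 2) := by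
      rw [← one_div]; exact one_div_le_one_div_of_le (by positivity) (by nlinarith)
    have c : (0 : ℝ) ≤ (i : ℝ)⁻¹ := by positivity
    rw [p, min_eq_right (by linarith)]
    nlinarith

theorem prod_ge (s : Finset ℕ) (f : ℕ → ℝ) (h : ∀ i, 0 ≤ f i) :
    1 + ∑ i ∈ s, f i ≤ ∏ i ∈ s, (1 + f i) := by
  induction s using Finset.induction_on with
  | empty => simp
  | insert a s ha ih =>
    rw [sum_insert ha, prod_insert ha]
    nlinarith [h a, sum_nonneg fun i (_ : i ∈ s) => h i]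

theorem cnt_le (S : Set ℕ) [DecidablePred (· ∈ S)] (hS : 0 ∉ S) (n : ℕ) :
    cnt S n ≤ 2 ^ ((Icc 1 n).filter (· ∈ S)).card := by
  rw [← card_powerset]
  refine le_trans ?_ (card_image_le (f := fun F => ∑ i ∈ F, i))
  rw [← Set.ncard_coe_finset]
  refine Set.ncard_le_ncard ?_ (finite_toSet _)
  rintro m ⟨-, h2, F, -, hF, rfl⟩
  refine mem_coe.2 (mem_image.2 ⟨F, mem_powerset.2 fun i hi => mem_filter.2 ⟨mem_Icc.2 ⟨?_, ?_⟩,
    hF i hi⟩, rfl⟩)
  · exact Nat.pos_of_ne_zero fun e => hS (e ▸ hF i hi)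
  · exact (single_le_sum (f := fun i => i) (fun _ _ => Nat.zero_le _) hi).trans h2

theorem e_lo {q t : ℝ} (h0 : 0 ≤ q) (h1 : q ≤ 1) (t0 : 0 ≤ t) (t1 : t ≤ 1) :
    1 + t ^ 2 / 4 * (q * (1 - q)) ≤ q * exp (t * (q - 1)) + (1 - q) * exp (t * q) := by
  have k : ∀ x : ℝ, -2 ≤ x → 1 + x + x ^ 2 / 4 ≤ exp x := fun x hx => by
    have := add_one_le_exp (x / 2)
    rw [show exp x = exp (x / 2) ^ 2 by rw [← exp_nat_mul]; congr 1; push_cast; ring]
    nlinarith
  have a := mul_le_mul_of_nonneg_left (k (t * (q - 1)) (by nlinarith)) h0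
  have b := mul_le_mul_of_nonneg_left (k (t * q) (by nlinarith)) (sub_nonneg.2 h1)
  nlinarith

theorem e_hi {q t : ℝ} (h0 : 0 ≤ q) (h1 : q ≤ 1) (t0 : 0 ≤ t) (t1 : t ≤ 1) :
    q * exp (t * (q - 1)) + (1 - q) * exp (t * q) ≤ exp (t ^ 2 * q) := by
  have k : ∀ x : ℝ, |x| ≤ 1 → exp x ≤ 1 + x + x ^ 2 := fun x hx => by
    linarith [(abs_le.1 (abs_exp_sub_one_sub_id_le hx)).2]
  have a := mul_le_mul_of_nonneg_left (k (t * (q - 1)) (abs_le.2 ⟨by nlinarith, by nlinarith⟩)) h0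
  have b := mul_le_mul_of_nonneg_left (k (t * q) (abs_le.2 ⟨by nlinarith, by nlinarith⟩))
    (sub_nonneg.2 h1)
  nlinarith [add_one_le_exp (t ^ 2 * q), sq_nonneg (t * q)]

theorem ev (C : ℝ) (hC : 0 < C) {d : ℝ} (hd : 0 < d) : ∀ᶠ n : ℕ in atTop, 4 ≤ log n ∧
    ∀ N : ℕ, C / 2 ≤ √(log n) * 2 ^ N / n → (√(log n))⁻¹ * (∑ i ∈ Icc 1 n, p i - N) ≤ d := by
  have tl : Tendsto (fun n : ℕ => log n) atTop atTop :=
    tendsto_log_atTop.comp tendsto_natCast_atTop_atTop
  have ts : Tendsto (fun n : ℕ => √(log n)) atTop atTop := tendsto_sqrt_atTop.comp tl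
  have lo := (isLittleO_log_id_atTop.comp_tendsto ts).bound (show 0 < d / 6 by positivity)
  filter_upwards [tl.eventually_ge_atTop 4, ts.eventually_ge_atTop (2 / C), lo,
    ts.eventually_ge_atTop (3 / d), eventually_ge_atTop 1] with n h4 h2 h3 h5 h1
  refine ⟨h4, fun N hN => ?_⟩
  have hn : (0 : ℝ) < n := by exact_mod_cast h1
  have hq := sq_sqrt (show 0 ≤ log n by linarith)
  have s0 : 0 < √(log n) := sqrt_pos.2 (by linarith)
  simp only [Function.comp, id, norm_eq_abs, abs_of_pos s0] at h3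
  replace h3 := (le_abs_self _).trans h3
  have m := mu_le n
  generalize √(log n) = s at *
  rw [le_div_iff₀ hn] at hN
  rw [div_le_iff₀ hC] at h2
  rw [div_le_iff₀ hd] at h5
  have a : (n : ℝ) ≤ s ^ 2 * 2 ^ N := by nlinarith [mul_le_mul_of_nonneg_left hN s0.le]
  have b := log_le_log hn a
  rw [log_mul (by positivity) (by positivity), log_pow, log_pow] at b
  rw [inv_mul_le_iff₀ s0]
  by_contra c
  have := l2
  push_cast at b
  nlinarith [mul_pos s0 hd]

open Classical in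
theorem main : ∀ (Ω : Type) [MeasurableSpace Ω] (P : Measure Ω) [IsProbabilityMeasure P]
    (E : ℕ → Set Ω), (∀ i, MeasurableSet (E i)) → iIndepSet E P →
    (∀ i, 1 ≤ i → P.real (E i) = min 1 (1 / (i * log 2))) →
    ¬ ∀ᵐ ω ∂P, ∃ C : ℝ, 0 < C ∧
      ∀ᶠ n : ℕ in atTop, C / 2 ≤ √(log n) * cnt {i | 1 ≤ i ∧ ω ∈ E i} n / n := by
  intro Ω _ P _ E hE hI hp H
  let X : ℕ → Ω → ℝ := fun i ω => p i - (E i).indicator (fun _ => 1) ω
  have mX : ∀ i, Measurable (X i) := fun i =>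
    measurable_const.sub (measurable_const.indicator (hE i))
  have iX : iIndepFun X P :=
    hI.iIndepFun_indicator.comp (fun i y => p i - y) fun i => by fun_prop
  have g : ∀ t n, mgf (∑ i ∈ Icc 1 n, X i) P t =
      ∏ i ∈ Icc 1 n, (p i * exp (t * (p i - 1)) + (1 - p i) * exp (t * p i)) := fun t n => by
    rw [iX.mgf_sum mX]
    refine prod_congr rfl fun i hi => ?_
    have : (fun ω => exp (t * X i ω)) = fun ω => exp (t * p i) +
        (E i).indicator (fun _ => exp (t * (p i - 1)) - exp (t * p i)) ω := by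
      ext ω; by_cases h : ω ∈ E i <;> simp [X, h]
    rw [mgf, this, integral_add (integrable_const _) ((integrable_const _).indicator (hE i)),
      integral_indicator_const _ (hE i), hp i (mem_Icc.1 hi).1, integral_const]
    simp only [probReal_univ, smul_eq_mul, p]
    ring
  have sX : ∀ n ω, (∑ i ∈ Icc 1 n, X i) ω = ∑ i ∈ Icc 1 n, p i -
      ((Icc 1 n).filter (· ∈ {i | 1 ≤ i ∧ ω ∈ E i})).card := fun n ω => by
    rw [Finset.sum_apply, sum_sub_distrib, card_filter]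
    push_cast
    congr 1
    refine sum_congr rfl fun i hi => ?_
    by_cases h : ω ∈ E i <;> simp [h, (mem_Icc.1 hi).1]
  have mS : ∀ n, Measurable (∑ i ∈ Icc 1 n, X i) := fun n => by
    rw [show ∑ i ∈ Icc 1 n, X i = fun ω => ∑ i ∈ Icc 1 n, X i ω from by ext; simp]
    exact Finset.measurable_sum _ fun i _ => mX i
  have it : ∀ t n, 0 ≤ t → Integrable (fun ω => exp (t * (∑ i ∈ Icc 1 n, X i) ω)) P :=
    fun t n ht => by
    refine Integrable.of_bound (by have := mS n; fun_prop) (exp (t * ∑ i ∈ Icc 1 n, p i))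
      (ae_of_all _ fun ω => ?_)
    rw [norm_eq_abs, abs_of_pos (exp_pos _), sX]
    gcongr
    exact sub_le_self _ (Nat.cast_nonneg _)
  let x : ℕ → Ω → ℝ := fun n ω => exp ((√(log n))⁻¹ * (∑ i ∈ Icc 1 n, X i) ω)
  let ε : ℝ := exp (-8) / 100
  have ε0 : 0 < ε := by positivity
  let a : ℝ := 101 / 100
  let h : ℕ → Ω → ℝ := fun n ω => max (x n ω - ε * x n ω ^ 2) a
  have mh : ∀ n, AEStronglyMeasurable (h n) P := fun n => by
    have := mS n
    refine Measurable.aestronglyMeasurable ?_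
    simp only [h, x]; fun_prop
  have bh : ∀ n ω, ‖h n ω‖ ≤ 1 / ε + a := fun n ω => by
    have : (0 : ℝ) < 1 / ε := by positivity
    rw [norm_eq_abs, abs_of_nonneg (le_max_of_le_right (by norm_num [a]))]
    refine max_le (le_add_of_le_of_nonneg ?_ (by norm_num [a])) (by linarith)
    rw [le_div_iff₀ ε0]
    nlinarith [sq_nonneg (ε * x n ω - 1 / 2)]
  have T := tendsto_integral_of_dominated_convergence (μ := P) (f := fun _ => a)
    (fun _ => 1 / ε + a) mh (integrable_const _) (fun n => ae_of_all _ (bh n)) (by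
      filter_upwards [H] with ω ⟨C, hC, hT⟩
      refine tendsto_const_nhds.congr' ?_
      filter_upwards [ev C hC (log_pos (show 1 < a by norm_num [a])),
        hT] with n h1 h2
      have := h1.2 ((Icc 1 n).filter (· ∈ {i | 1 ≤ i ∧ ω ∈ E i})).card (h2.trans (by
        gcongr
        exact_mod_cast cnt_le {i | 1 ≤ i ∧ ω ∈ E i} (by simp) n))
      rw [← sX] at this
      have : x n ω ≤ a := (exp_le_exp.2 this).trans (exp_log (by norm_num [a])).le
      exact (max_eq_right ((sub_le_self _ (by positivity)).trans this)).symm)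
  simp only [integral_const, probReal_univ, smul_eq_mul, one_mul] at T
  obtain ⟨n, h1, h2⟩ := ((T.eventually_lt_const (show a < 102 / 100 by norm_num [a])).and
    (ev 1 one_pos one_pos)).exists
  replace h2 := h2.1
  have hq := sq_sqrt (show 0 ≤ log n by linarith)
  have s2 : 2 ≤ √(log n) := le_sqrt_of_sq_le (by linarith)
  have t0 : 0 ≤ (√(log n))⁻¹ := by positivity
  have t1 : (√(log n))⁻¹ ≤ 1 / 2 := by rw [one_div]; gcongr
  have t2 : (√(log n))⁻¹ ^ 2 * log n = 1 := by rw [inv_pow, hq]; field_simp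
  have x2 : ∀ ω, x n ω ^ 2 = exp (2 * (√(log n))⁻¹ * (∑ i ∈ Icc 1 n, X i) ω) := fun ω => by
    simp only [x]; rw [← exp_nat_mul]; congr 1; push_cast; ring
  have i2 := it (2 * (√(log n))⁻¹) n (by positivity)
  have key : mgf (∑ i ∈ Icc 1 n, X i) P (√(log n))⁻¹ -
      ε * mgf (∑ i ∈ Icc 1 n, X i) P (2 * (√(log n))⁻¹) ≤ ∫ ω, h n ω ∂P := by
    rw [mgf, mgf, ← integral_const_mul, ← integral_sub (it _ n t0) (i2.const_mul ε)]
    refine integral_mono ((it _ n t0).sub (i2.const_mul ε))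
      (Integrable.of_bound (mh n) _ (ae_of_all _ (bh n))) fun ω => ?_
    simp only [← x2]
    exact le_max_left _ _
  generalize (√(log n))⁻¹ = t at *
  have lo : 1 + t ^ 2 / 4 * ∑ i ∈ Icc 1 n, p i * (1 - p i) ≤ mgf (∑ i ∈ Icc 1 n, X i) P t := by
    have q : ∀ i, 0 ≤ t ^ 2 / 4 * (p i * (1 - p i)) := fun i =>
      mul_nonneg (by positivity) (mul_nonneg (p01 i).1 (sub_nonneg.2 (p01 i).2))
    rw [g, mul_sum]
    exact (prod_ge _ _ q).trans (prod_le_prod (fun i _ => by linarith [q i])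
      fun i _ => e_lo (p01 i).1 (p01 i).2 t0 (by linarith))
  have hi : mgf (∑ i ∈ Icc 1 n, X i) P (2 * t) ≤ exp 8 := by
    rw [g]
    refine (prod_le_prod (fun i _ => ?_) fun i _ =>
      e_hi (p01 i).1 (p01 i).2 (by linarith) (by linarith)).trans ?_
    · have := p01 i
      have := sub_nonneg.2 this.2
      have := (p01 i).1
      positivity
    · rw [← exp_sum, ← mul_sum, exp_le_exp]
      have m := mu_le n
      have m0 : 0 ≤ ∑ i ∈ Icc 1 n, p i := sum_nonneg fun i _ => (p01 i).1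
      have : ∑ i ∈ Icc 1 n, p i ≤ 2 * log n := by nlinarith [l2.1]
      nlinarith [mul_le_mul_of_nonneg_left this (sq_nonneg t)]
  have e8 : ε * exp 8 = 1 / 100 := by
    simp only [ε]; rw [div_mul_eq_mul_div, ← exp_add]; norm_num
  have v := mul_le_mul_of_nonneg_left (var_ge n) (sq_nonneg t)
  nlinarith [mul_le_mul_of_nonneg_left hi ε0.le]

theorem result : ∀ (Ω : Type) [MeasurableSpace Ω] (P : Measure Ω) [IsProbabilityMeasure P]
    (E : ℕ → Set Ω), (∀ i, MeasurableSet (E i)) → iIndepSet E P →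
    (∀ i, 1 ≤ i → P.real (E i) = min 1 (1 / (i * log 2))) →
    (¬ ∀ᵐ ω ∂P, ∃ c : ℝ, 0 < c ∧
      ∀ᶠ n : ℕ in atTop, c ≤ √(log n) * cnt {i | 1 ≤ i ∧ ω ∈ E i} n / n) ∧
    ∀ C : ℝ, 0 < C → ¬ ∀ᵐ ω ∂P,
      Tendsto (fun n : ℕ => √(log n) * cnt {i | 1 ≤ i ∧ ω ∈ E i} n / n) atTop (𝓝 C) := by
  intro Ω _ P _ E hE hI hp
  refine ⟨fun H => main Ω P E hE hI hp ?_, fun C hC H => main Ω P E hE hI hp ?_⟩
  · filter_upwards [H] with ω ⟨c, hc, h⟩
    exact ⟨c, hc, h.mono fun n => (half_le_self hc.le).trans⟩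
  · filter_upwards [H] with ω h
    exact ⟨C, hC, h.eventually_const_le (half_lt_self hC)⟩

end Pool.Agent.Results.MP_78f804_pr.NoLimit
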